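import Pool.Agent.Helper42.FR.Stmts

/-!
# Row MAIN: the irrational value
-/

set_option autoImplicit false

namespace Pool.Agent.Helper60.FR

open Matrix Pool.Agent.Helper81.Fmr Pool.Agent.Helper42.FR

universe u

theorem st_MAIN (F : Type u) [Field F] (h1 : ST_VAL F) : ST_MAIN F := by
  obtain ⟨K, hK⟩ := h1
  let e := (Fintype.equivFin (Fin K × (Fin 3 ⊕ Option (Vr × Fin 3)))).symm
  let f := (Fintype.equivFin (Option (Fin K × (Fin 3 ⊕ ((Vr × Bool) ⊕ Fin pr.length))))).symm
  refine ⟨_, _, (tot K (SY F) Vr.e).submatrix e f, ?_⟩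
  have h2 : fmr ((tot K (SY F) Vr.e).submatrix e f) = fmr (tot K (SY F) Vr.e) := by
    unfold fmr
    congr 1
    ext b
    rw [mr_reindex]
  rw [h2, hK]
  have h5 : Irrational (Real.sqrt 5) := by
    have := Nat.Prime.irrational_sqrt (show Nat.Prime 5 by norm_num)
    simpa using this
  have h6 : (3 * (K : ℝ) + (Real.sqrt 5 - 2)) = Real.sqrt 5 + ((3 * (K : ℤ) - 2 : ℤ) : ℝ) := by
    push_cast
    ring
  rw [h6]
  exact h5.add_intCast _

end Pool.Agent.Helper60.FR
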