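import Pool.Agent.Helper42.FR.Stmts

/-!
# Row SR: from the system to the relations
-/

set_option autoImplicit false

namespace Pool.Agent.Helper60.FR

open Matrix Pool.Agent.Helper81.Fmr Pool.Agent.Helper42.FR

universe u

section
variable {F : Type u} [Field F] {b : ℕ}

theorem sr_neg (X : Matrix (Fin b) (Fin b) F) : (-X).rank ≤ X.rank := by
  have h : -X = (-1 : Matrix (Fin b) (Fin b) F) * X := by simp
  rw [h]
  exact rank_mul_le_right _ _

theorem AE_symm {d : ℕ} {X Y : Matrix (Fin b) (Fin b) F} (h : AE d X Y) : AE d Y X := by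
  unfold AE at *
  have e : Y - X = -(X - Y) := by abel
  rw [e]
  exact (sr_neg _).trans h

theorem AE_trans {a c : ℕ} {X Y Z : Matrix (Fin b) (Fin b) F} (h : AE a X Y) (h' : AE c Y Z) :
    AE (a + c) X Z := by
  unfold AE at *
  have e : X - Z = (X - Y) + (Y - Z) := by abel
  rw [e]
  exact (rank_add_le' _ _).trans (add_le_add h h')

theorem AE_mono {a c : ℕ} {X Y : Matrix (Fin b) (Fin b) F} (h : AE a X Y) (hac : a ≤ c) :
    AE c X Y := le_trans h hac

theorem AE_L {a : ℕ} {X Y : Matrix (Fin b) (Fin b) F} (Z : Matrix (Fin b) (Fin b) F)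
    (h : AE a X Y) : AE a (Z * X) (Z * Y) := by
  unfold AE at *
  rw [← mul_sub]
  exact (rank_mul_le_right _ _).trans h

theorem AE_R {a : ℕ} {X Y : Matrix (Fin b) (Fin b) F} (Z : Matrix (Fin b) (Fin b) F)
    (h : AE a X Y) : AE a (X * Z) (Y * Z) := by
  unfold AE at *
  rw [← sub_mul]
  exact (rank_mul_le_left _ _).trans h

theorem AE_mul {a c : ℕ} {X Y X' Y' : Matrix (Fin b) (Fin b) F} (h : AE a X Y)
    (h' : AE c X' Y') : AE (a + c) (X * X') (Y * Y') := AE_trans (AE_R X' h) (AE_L Y h')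

theorem AE_neg {a : ℕ} {X Y : Matrix (Fin b) (Fin b) F} (h : AE a X Y) : AE a (-X) (-Y) := by
  unfold AE at *
  have e : -X - -Y = -(X - Y) := by abel
  rw [e]
  exact (sr_neg _).trans h

/-- conjugation: `y x = w`, `u y = w`, `y y' = 1` give `u = y x y'` -/
theorem AE_conj {d a : ℕ} {y y' x x0 w u : Matrix (Fin b) (Fin b) F} (h1 : AE d (y * x) w)
    (h2 : AE d (u * y) w) (h3 : AE d (y * y') 1) (h4 : AE a x x0) :
    AE (a + 3 * d) u (y * x0 * y') := by
  have k1 : AE d u (u * (y * y')) := by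
    have := AE_L u (AE_symm h3)
    rwa [mul_one] at this
  rw [← mul_assoc] at k1
  have k2 : AE d (u * y * y') (w * y') := AE_R y' h2
  have k3 : AE d (w * y') (y * x * y') := AE_R y' (AE_symm h1)
  have k4 : AE a (y * x * y') (y * x0 * y') := AE_R y' (AE_L y h4)
  exact AE_mono (AE_trans (AE_trans (AE_trans k1 k2) k3) k4) (by omega)

/-- `u = y' w y` from `y u = w`, `v y = w`, `y' y = 1` -/
theorem AE_conj' {d : ℕ} {y y' v w u : Matrix (Fin b) (Fin b) F} (h1 : AE d (v * y) w)
    (h2 : AE d (y * u) w) (h3 : AE d (y' * y) 1) : AE (3 * d) u (y' * v * y) := by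
  have k1 : AE d u (y' * y * u) := by
    have := AE_R u (AE_symm h3)
    rwa [one_mul] at this
  rw [mul_assoc] at k1
  have k2 : AE d (y' * (y * u)) (y' * w) := AE_L y' h2
  have k3 : AE d (y' * w) (y' * (v * y)) := AE_L y' (AE_symm h1)
  rw [← mul_assoc] at k3
  exact AE_mono (AE_trans (AE_trans k1 k2) k3) (by omega)

/-- commuting -/
theorem AE_comm {d a : ℕ} {x y y0 w : Matrix (Fin b) (Fin b) F} (h1 : AE d (x * y) w)
    (h2 : AE d (y * x) w) (h3 : AE a y y0) : AE (2 * a + 2 * d) (x * y0) (y0 * x) := by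
  have k1 := AE_L x (AE_symm h3)
  have k2 := AE_R x h3
  exact AE_mono (AE_trans (AE_trans (AE_trans k1 h1) (AE_symm h2)) k2) (by omega)

end

theorem st_SR (F : Type u) [Field F] : ST_SR F := by
  refine ⟨100, ?_⟩
  intro b d z hp hd hk
  have P : ∀ x y w : Vr, (x, y, w) ∈ pr → AE d (z x * z y) (z w) := by
    intro x y w h
    obtain ⟨m, hm⟩ := List.mem_iff_get.1 h
    have := hp m
    simp only [SY, hm] at this
    exact this
  have z1 : z .one = 1 := by
    have := hk .one 1 rfl
    rwa [one_smul] at this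
  have z0 : z .zero = 0 := by
    have := hk .zero 0 rfl
    rwa [zero_smul] at this
  have ss : AE d (z .s * z .s') 1 := by rw [← z1]; exact P _ _ _ (by decide)
  have ss' : AE d (z .s' * z .s) 1 := by rw [← z1]; exact P _ _ _ (by decide)
  have tt : AE d (z .t * z .t') 1 := by rw [← z1]; exact P _ _ _ (by decide)
  have tt' : AE d (z .t' * z .t) 1 := by rw [← z1]; exact P _ _ _ (by decide)
  have hh : AE d (z .h * z .h') 1 := by rw [← z1]; exact P _ _ _ (by decide)
  have hh' : AE d (z .h' * z .h) 1 := by rw [← z1]; exact P _ _ _ (by decide)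
  have ee : AE d (z .e * z .e) (z .e) := P _ _ _ (by decide)
  have e1 : AE (0 + 3 * d) (z .e1) (z .s * z .e * z .s') :=
    AE_conj (P .s .e .se (by decide)) (P .e1 .s .se (by decide)) ss
      (by unfold AE; rw [sub_self, rank_zero])
  have em : AE (3 * d) (z .em) (z .s' * z .e * z .s) :=
    AE_conj' (P .e .s .es (by decide)) (P .s .em .es (by decide)) ss'
  have st : AE d (z .s * z .t) (z .st) := P _ _ _ (by decide)
  have q : AE (4 * d) (z .q) (z .e * (z .s' * z .e * z .s)) := by
    have k1 := AE_symm (P .e .em .q (by decide))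
    have k2 := AE_L (z .e) em
    exact AE_mono (AE_trans k1 k2) (by omega)
  have E0 : AE d (z (.E 0)) (z .e) := by
    have := AE_symm (P .one .e (.E 0) (by decide))
    rwa [z1, one_mul] at this
  have E1 := AE_conj (P .h (.E 0) (.hE 0) (by decide)) (P (.E 1) .h (.hE 0) (by decide)) hh E0
  have E2 := AE_conj (P .h (.E 1) (.hE 1) (by decide)) (P (.E 2) .h (.hE 1) (by decide)) hh E1
  have E3 := AE_conj (P .h (.E 2) (.hE 2) (by decide)) (P (.E 3) .h (.hE 2) (by decide)) hh E2
  have G0 := AE_conj (P .h .q (.hG 0) (by decide)) (P (.G 0) .h (.hG 0) (by decide)) hh q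
  have G1 := AE_conj (P .h (.G 0) (.hG 1) (by decide)) (P (.G 1) .h (.hG 1) (by decide)) hh G0
  have G2 := AE_conj (P .h (.G 1) (.hG 2) (by decide)) (P (.G 2) .h (.hG 2) (by decide)) hh G1
  have E4 := AE_conj (P .h (.G 2) (.hG 3) (by decide)) (P (.E 4) .h (.hG 3) (by decide)) hh G2
  have HE : ∀ i, AE (16 * d) (z (.E i)) (EE (z .s) (z .s') (z .h) (z .h') (z .e) i) := by
    intro i
    fin_cases i
    · exact AE_mono E0 (by omega)
    · exact AE_mono E1 (by omega)
    · exact AE_mono E2 (by omega)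
    · exact AE_mono E3 (by omega)
    · exact AE_mono E4 (by omega)
  have Hn : ∀ i : Fin 5, AE (17 * d) (1 - EE (z .s) (z .s') (z .h) (z .h') (z .e) i)
      (-(z (.n i))) := by
    intro i
    have k1 : AE d (z (.E i) - z (.n i)) ((1 : F) • 1) := hd (.E i) (.n i) 1 (by simp) (by simp [SY])
    have k2 := HE i
    unfold AE at *
    have e : 1 - EE (z .s) (z .s') (z .h) (z .h') (z .e) i - -(z (.n i)) =
        (z (.E i) - EE (z .s) (z .s') (z .h) (z .h') (z .e) i) +
          -(z (.E i) - z (.n i) - (1 : F) • 1) := by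
      rw [one_smul]
      abel
    rw [e]
    have k3 := (rank_add_le' (z (.E i) - EE (z .s) (z .s') (z .h) (z .h') (z .e) i)
      (-(z (.E i) - z (.n i) - (1 : F) • 1))).trans (add_le_add k2 ((sr_neg _).trans k1))
    omega
  have mem : ∀ i j : Fin 5, i ≠ j → (Vr.E i, Vr.E j, Vr.zero) ∈ pr := by decide
  have st2 : AE (d + d) (z .s * z .k * z .t) (z .ts) :=
    AE_trans (AE_R _ (P .s .k .sk (by decide))) (P .sk .t .ts (by decide))
  refine ⟨?_, ?_, ?_, ?_, ?_, ?_, ?_, ?_, ?_, ?_, ?_, ?_, ?_, ?_, ?_, ?_, ?_⟩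
  · exact AE_mono ss (by omega)
  · exact AE_mono ss' (by omega)
  · exact AE_mono tt (by omega)
  · exact AE_mono tt' (by omega)
  · exact AE_mono hh (by omega)
  · exact AE_mono hh' (by omega)
  · exact AE_mono (AE_trans (P .t .s .ts (by decide)) (AE_symm st2)) (by omega)
  · exact AE_mono (AE_comm (P .k .st .kst (by decide)) (P .st .k .kst (by decide))
      (AE_symm st)) (by omega)
  · exact AE_mono (AE_comm (P .h .st .hst (by decide)) (P .st .h .hst (by decide))
      (AE_symm st)) (by omega)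
  · exact AE_mono (AE_comm (P .e .st .est (by decide)) (P .st .e .est (by decide))
      (AE_symm st)) (by omega)
  · exact AE_mono ee (by omega)
  · exact AE_mono (AE_comm (P .t .e1 .te1 (by decide)) (P .e1 .t .te1 (by decide)) e1) (by omega)
  · exact AE_mono (AE_comm (P .k .e1 .ke1 (by decide)) (P .e1 .k .ke1 (by decide)) e1) (by omega)
  · exact AE_mono (AE_comm (P .h .e1 .he1 (by decide)) (P .e1 .h .he1 (by decide)) e1) (by omega)
  · exact AE_mono (AE_comm (P .e .e1 .ee1 (by decide)) (P .e1 .e .ee1 (by decide)) e1) (by omega)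
  · intro i j hij
    have k1 := AE_mul (AE_symm (HE i)) (AE_symm (HE j))
    have k2 := P _ _ _ (mem i j hij)
    rw [z0] at k2
    exact AE_mono (AE_trans k1 k2) (by omega)
  · have k1 := AE_mul (AE_mul (AE_mul (AE_mul (Hn 0) (Hn 1)) (Hn 2)) (Hn 3)) (Hn 4)
    have k2 : AE (4 * d) (z (.n 0) * z (.n 1) * z (.n 2) * z (.n 3) * z (.n 4)) 0 := by
      have m1 := P (.n 0) (.n 1) (.p 0) (by decide)
      have m2 := P (.p 0) (.n 2) (.p 1) (by decide)
      have m3 := P (.p 1) (.n 3) (.p 2) (by decide)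
      have m4 := P (.p 2) (.n 4) .zero (by decide)
      rw [z0] at m4
      have r1 := AE_R (z (.n 4)) (AE_R (z (.n 3)) (AE_R (z (.n 2)) m1))
      have r2 := AE_R (z (.n 4)) (AE_R (z (.n 3)) m2)
      have r3 := AE_R (z (.n 4)) m3
      exact AE_mono (AE_trans (AE_trans (AE_trans r1 r2) r3) m4) (by omega)
    have k3 := AE_neg k2
    have e : -(z (.n 0)) * -(z (.n 1)) * -(z (.n 2)) * -(z (.n 3)) * -(z (.n 4)) =
        -(z (.n 0) * z (.n 1) * z (.n 2) * z (.n 3) * z (.n 4)) := by
      noncomm_ring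
    rw [e] at k1
    rw [neg_zero] at k3
    exact AE_mono (AE_trans k1 k3) (by omega)

end Pool.Agent.Helper60.FR
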